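import Mathlib

/-!
# Squad AT8, row FKL: linear algebra
-/

open scoped BigOperators

noncomputable section

namespace Pool.Agent.PP.T8.H76

/-- an idempotent matrix of trace `n` and independent vectors in its kernel -/
theorem rank_ker {κ ι : Type} [Fintype κ] [DecidableEq κ] [Fintype ι] (R : Matrix κ κ ℂ)
    (hR : R * R = R) (n : ℕ) (htr : R.trace = n) (w : ι → κ → ℂ) (hw : ∀ i, R.mulVec (w i) = 0)
    (hli : LinearIndependent ℂ w) : n + Fintype.card ι ≤ Fintype.card κ := by
  obtain ⟨f, hf⟩ : ∃ f : (κ → ℂ) →ₗ[ℂ] (κ → ℂ), f = Matrix.toLin' R := ⟨_, rfl⟩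
  have h1 : IsIdempotentElem f := by
    unfold IsIdempotentElem
    rw [hf, Module.End.mul_eq_comp, ← Matrix.toLin'_mul, hR]
  have h2 := (LinearMap.isProj_range_iff_isIdempotentElem f).2 h1
  have h3 : LinearMap.trace ℂ (κ → ℂ) f = (Module.finrank ℂ (LinearMap.range f) : ℂ) := h2.trace
  have h4 : LinearMap.trace ℂ (κ → ℂ) f = R.trace := by
    rw [hf, Matrix.trace_toLin'_eq]
  have h5 : n = Module.finrank ℂ (LinearMap.range f) := by
    have h6 : (n : ℂ) = (Module.finrank ℂ (LinearMap.range f) : ℂ) := by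
      rw [← h3, h4, htr]
    exact_mod_cast h6
  have h6 := LinearMap.finrank_range_add_finrank_ker f
  rw [Module.finrank_fintype_fun_eq_card] at h6
  have h7 : ∀ i, w i ∈ LinearMap.ker f := by
    intro i
    rw [LinearMap.mem_ker, hf, Matrix.toLin'_apply, hw]
  have h8 : LinearIndependent ℂ (fun i => (⟨w i, h7 i⟩ : LinearMap.ker f)) := by
    apply LinearIndependent.of_comp (LinearMap.ker f).subtype
    exact hli
  have h9 := h8.fintype_card_le_finrank
  omega

/-- orthogonal vectors which are not zero are independent -/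
theorem li_of_orth {κ ι : Type} [Fintype κ] [Fintype ι] (w : ι → κ → ℂ) (N : ℂ) (hN : N ≠ 0)
    (h1 : ∀ i, ∑ k, w i k * starRingEnd ℂ (w i k) = N)
    (h2 : ∀ i j, i ≠ j → ∑ k, w i k * starRingEnd ℂ (w j k) = 0) : LinearIndependent ℂ w := by
  classical
  rw [Fintype.linearIndependent_iff]
  intro a ha j
  have h3 : ∑ i, a i * ∑ k, w i k * starRingEnd ℂ (w j k) = 0 := by
    have h4 : ∑ i, a i * ∑ k, w i k * starRingEnd ℂ (w j k) =
        ∑ k, (∑ i, a i • w i) k * starRingEnd ℂ (w j k) := by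
      simp only [Finset.mul_sum, Finset.sum_apply, Pi.smul_apply, smul_eq_mul, Finset.sum_mul]
      rw [Finset.sum_comm]
      exact Finset.sum_congr rfl fun k _ => Finset.sum_congr rfl fun i _ => by ring
    rw [h4, ha]
    simp
  rw [Finset.sum_eq_single j] at h3
  · rw [h1] at h3
    exact (mul_eq_zero.1 h3).resolve_right hN
  · intro i _ hij
    rw [h2 i j hij, mul_zero]
  · intro h
    exact absurd (Finset.mem_univ _) h

end Pool.Agent.PP.T8.H76
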