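import Pool.Agent.AT8.StmtsF
import Pool.Agent.Helper62_AT3.CO2
import Pool.Agent.Helper25_K9.ROT
import Pool.Agent.Helper76_AT8.Lin

/-!
# Squad AT8, row FKL: the number of ordinary and of modular characters
-/

open scoped BigOperators

noncomputable section

namespace Pool.Agent.PP.T8.H76

open Pool.Agent.Helper51_AWC Pool.Agent.Helper79_WRA Pool.Agent.PP Pool.Agent.PP.KF
open Pool.Agent.PP.K9 Pool.Agent.PP.K9.H97 Pool.Agent.PP.H75 Pool.Agent.PP.T3 Pool.Agent.PP.T2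

attribute [local instance] Ideal.Quotient.field

/-- an `ℓ`-element `≠ 1` times a commuting regular element is singular -/
theorem sing_mul {ℓ : ℕ} [Fact ℓ.Prime] {H : Type} [Group H] {u c : H} (h1 : u ≠ 1)
    (hu : El ℓ u) (hc : Reg ℓ c) (huc : u * c = c * u) : ¬ Reg ℓ (u * c) := by
  have hpr : ℓ.Prime := Fact.out
  obtain ⟨n, hn⟩ := hu
  obtain ⟨k, -, hk⟩ := (Nat.dvd_prime_pow hpr).1 (orderOf_dvd_of_pow_eq_one hn)
  have hk0 : k ≠ 0 := by
    rintro rfl
    rw [pow_zero, orderOf_eq_one_iff] at hk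
    exact h1 hk
  have hco : (orderOf u).Coprime (orderOf c) := by
    rw [hk]
    exact Nat.Coprime.pow_left k (Nat.Coprime.symm hc)
  have h2 : orderOf (u * c) = orderOf u * orderOf c :=
    Commute.orderOf_mul_eq_mul_orderOf_of_coprime huc hco
  intro hreg
  unfold Reg at hreg
  rw [h2, hk] at hreg
  have h3 : ℓ ∣ ℓ ^ k * orderOf c := (dvd_pow_self ℓ hk0).mul_right _
  have h4 := Nat.Coprime.eq_one_of_dvd (Nat.Coprime.symm hreg) h3
  exact hpr.one_lt.ne' h4

theorem fkl (hDO : DorStmt) (hLR : LrkStmt) (hSM : SmgStmt) : FklStmt := by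
  classical
  intro ℓ _ M _ hM G _ _ e V γ b d c ε hD ι _ u hu hcon
  have := Fintype.ofFinite G
  have hpr : ℓ.Prime := Fact.out
  have he : IsIdem e := hD.ld.blk.1
  have hfin : (IrrE M e).Finite := K9.H25.irrE_finite M e
  obtain ⟨S, hSdef⟩ : ∃ S : Finset (G → ℂ), S = hfin.toFinset := ⟨_, rfl⟩
  have hSc : (S : Set (G → ℂ)) = IrrE M e := by rw [hSdef, Set.Finite.coe_toFinset]
  have hmem : ∀ χ, χ ∈ S ↔ χ ∈ IrrE M e := fun χ => by
    rw [hSdef, Set.Finite.mem_toFinset]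
  have hS : ∀ ψ ∈ S, ψ ∈ Irr G := fun ψ hψ => ((hmem ψ).1 hψ).1
  have hcard : (IrrE M e).ncard = Fintype.card S := by
    rw [← hSc, Set.ncard_coe_finset, Fintype.card_coe]
  -- the matrix
  obtain ⟨R, hR⟩ : ∃ R : Matrix S S ℂ, ∀ χ ψ : S, R χ ψ = (Fintype.card G : ℂ)⁻¹ *
      ∑ s, (if Reg ℓ s then (χ : G → ℂ) s else 0) * (ψ : G → ℂ) s⁻¹ := ⟨fun χ ψ => _, fun _ _ => rfl⟩
  have hexp : ∀ (χ : S) (t : G), ∑ ψ : S, R χ ψ * (ψ : G → ℂ) t =
      if Reg ℓ t then (χ : G → ℂ) t else 0 := by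
    intro χ t
    have h1 := (K9.H25.rot T3.H62.wbo_ ℓ M hM G e he).1 χ
      (Submodule.subset_span ((hmem _).1 χ.2))
    rw [← hSc] at h1
    have h2 := congrFun (K9.H25.pj_span hS h1) t
    unfold K9.H25.pj at h2
    rw [Finset.sum_apply, ← Finset.sum_coe_sort] at h2
    rw [← h2]
    refine Finset.sum_congr rfl fun ψ _ => ?_
    rw [Pi.smul_apply, smul_eq_mul, hR]
  have hRR : R * R = R := by
    ext χ φ
    rw [Matrix.mul_apply, hR χ φ]
    have h1 : ∀ ψ : S, R χ ψ * R ψ φ = (Fintype.card G : ℂ)⁻¹ *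
        ∑ t, (if Reg ℓ t then R χ ψ * (ψ : G → ℂ) t else 0) * (φ : G → ℂ) t⁻¹ := by
      intro ψ
      rw [hR ψ φ, mul_left_comm, Finset.mul_sum]
      congr 1
      refine Finset.sum_congr rfl fun t _ => ?_
      by_cases ht : Reg ℓ t
      · rw [if_pos ht, if_pos ht, mul_assoc]
      · rw [if_neg ht, if_neg ht, zero_mul, mul_zero]
    rw [Finset.sum_congr rfl fun ψ _ => h1 ψ, ← Finset.mul_sum, Finset.sum_comm]
    congr 1
    refine Finset.sum_congr rfl fun t _ => ?_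
    by_cases ht : Reg ℓ t
    · simp only [if_pos ht]
      rw [← Finset.sum_mul, hexp χ t, if_pos ht]
    · simp only [if_neg ht, zero_mul, Finset.sum_const_zero]
  have htr : R.trace = (ln e : ℂ) := by
    rw [hLR ℓ M hM G e he, Nat.card_eq_fintype_card]
    unfold Matrix.trace
    have h1 : ∀ χ : S, R.diag χ = (Fintype.card G : ℂ)⁻¹ *
        ∑ s, (if Reg ℓ s then (χ : G → ℂ) s * starRingEnd ℂ ((χ : G → ℂ) s) else 0) := by
      intro χ
      rw [Matrix.diag_apply, hR]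
      congr 1
      refine Finset.sum_congr rfl fun s _ => ?_
      by_cases hs : Reg ℓ s
      · rw [if_pos hs, if_pos hs, H94.irr_star (hS _ χ.2)]
      · rw [if_neg hs, if_neg hs, zero_mul]
    rw [Finset.sum_congr rfl fun χ _ => h1 χ, ← Finset.mul_sum, Finset.sum_comm,
      finsum_eq_sum_of_fintype]
    congr 1
    refine Finset.sum_congr rfl fun s _ => ?_
    rw [finsum_eq_if, finsum_mem_eq_finite_toFinset_sum _ hfin, ← hSdef]
    by_cases hs : Reg ℓ s
    · simp only [if_pos hs]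
      exact Finset.sum_coe_sort S (fun χ => χ s * starRingEnd ℂ (χ s))
    · simp only [if_neg hs, Finset.sum_const_zero]
  -- the vectors
  obtain ⟨w, hw⟩ : ∃ w : ι → S → ℂ, ∀ i ψ, w i ψ = vv M b d (u i) ψ := ⟨fun i ψ => _, fun _ _ => rfl⟩
  have hel : ∀ i, El ℓ (u i) := by
    intro i
    obtain ⟨k, hk⟩ := hD.ld.tp.pg ⟨u i, (hu i).1⟩
    exact ⟨k, congrArg Subtype.val hk⟩
  have hker : ∀ i, R.mulVec (w i) = 0 := by
    intro i
    funext χ
    have h0 : ∀ s, Reg ℓ s → ∑ ψ : S, (ψ : G → ℂ) s⁻¹ * w i ψ = 0 := by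
      intro s hs
      have := Fintype.ofFinite (Cu (u i))
      have h1 : ∀ ψ : S, (ψ : G → ℂ) s⁻¹ * w i ψ = ∑ x : Cu (u i),
          eh M (fun t : Cu (u i) => b (u i) t) x / d (u i) *
            ((ψ : G → ℂ) s⁻¹ * (ψ : G → ℂ) (u i * x)) := by
        intro ψ
        rw [hw]
        unfold vv gv gbv
        rw [finsum_eq_sum_of_fintype, Finset.sum_div, Finset.mul_sum]
        exact Finset.sum_congr rfl fun x _ => by ring
      rw [Finset.sum_congr rfl fun ψ _ => h1 ψ, Finset.sum_comm]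
      refine Finset.sum_eq_zero fun x _ => ?_
      rw [← Finset.mul_sum]
      by_cases hx : Reg ℓ x
      · have h2 : ¬ Reg ℓ (u i * x) := sing_mul (hu i).2.1 (hel i) (T3.H62.reg_coe hx)
          (T3.H62.comm_Cu x.2).symm
        have h3 := T3.H62.wbo_ ℓ M hM G e he s (u i * x) hs h2
        rw [finsum_mem_eq_finite_toFinset_sum _ hfin, ← hSdef] at h3
        rw [Finset.sum_coe_sort S (fun ψ => ψ s⁻¹ * ψ (u i * x)), h3, mul_zero]
      · rw [K9.H25.eh_sing T3.H62.wbo_ ℓ M hM _ (hD.lc _ (hu i)).blk.blk.1 x hx, zero_div,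
          zero_mul]
    rw [Pi.zero_apply]
    change ∑ ψ : S, R χ ψ * w i ψ = 0
    have h1 : ∀ ψ : S, R χ ψ * w i ψ = (Fintype.card G : ℂ)⁻¹ *
        ∑ s, (if Reg ℓ s then (χ : G → ℂ) s else 0) * ((ψ : G → ℂ) s⁻¹ * w i ψ) := by
      intro ψ
      rw [hR, mul_assoc, Finset.sum_mul]
      congr 1
      exact Finset.sum_congr rfl fun s _ => by ring
    rw [Finset.sum_congr rfl fun ψ _ => h1 ψ, ← Finset.mul_sum, Finset.sum_comm]
    rw [Finset.sum_eq_zero, mul_zero]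
    intro s _
    rw [← Finset.mul_sum]
    by_cases hs : Reg ℓ s
    · rw [h0 s hs, mul_zero]
    · rw [if_neg hs, zero_mul]
  have hout : ∀ i, ∀ χ ∈ Irr G, χ ∉ S → vv M b d (u i) χ = 0 := by
    intro i χ hχ hχS
    have hreg1 : Reg ℓ (1 : G) := by
      unfold Reg
      rw [orderOf_one]
      exact Nat.coprime_one_left ℓ
    have h1 := (hSM ℓ M hM G (u i) 1 (hu i).2.1 (hel i) (one_mem _) hreg1
      (fun t : Cu (u i) => b (u i) t) (hD.lc _ (hu i)).blk.blk.1 e he).1 (hD.lc _ (hu i)).und χ hχ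
      (fun h => hχS ((hmem χ).2 h))
    rw [mul_one] at h1
    unfold vv gv
    rw [h1, zero_div]
  have hsum : ∀ i j, ∑ k, w i k * starRingEnd ℂ (w j k) =
      ∑ᶠ χ ∈ Irr G, vv M b d (u i) χ * starRingEnd ℂ (vv M b d (u j) χ) := by
    intro i j
    rw [finsum_mem_eq_finite_toFinset_sum _ (irr_finite' : (Irr G).Finite)]
    rw [← Finset.sum_subset (s₁ := S)]
    · rw [← Finset.sum_coe_sort S
        (fun χ => vv M b d (u i) χ * starRingEnd ℂ (vv M b d (u j) χ))]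
      exact Finset.sum_congr rfl fun k _ => by rw [hw, hw]
    · intro χ hχ
      rw [Set.Finite.mem_toFinset]
      exact hS χ hχ
    · intro χ hχ hχS
      rw [Set.Finite.mem_toFinset] at hχ
      rw [hout i χ hχ hχS, zero_mul]
  have hV : (Nat.card V : ℂ) ≠ 0 := by exact_mod_cast Nat.card_pos.ne'
  have hli : LinearIndependent ℂ w := by
    refine li_of_orth w (Nat.card V : ℂ) hV (fun i => ?_) (fun i j hij => ?_)
    · rw [hsum]
      refine (hDO ℓ M hM G e V γ b d c ε hD (u i) (u i) (hu i) (hu i)).1 ⟨1, one_mem _, ?_⟩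
      group
    · rw [hsum]
      refine (hDO ℓ M hM G e V γ b d c ε hD (u i) (u j) (hu i) (hu j)).2 ?_
      rintro ⟨t, ht, h⟩
      exact hcon j i (Ne.symm hij) t ht h
  rw [hcard]
  exact rank_ker R hRR (ln e) htr w hker hli

end Pool.Agent.PP.T8.H76
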