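import Pool.Agent.AT8.Stmts3

/-!
# Squad AT8, row LB8: the bound for the number of modular characters
-/

open scoped BigOperators

noncomputable section

namespace Pool.Agent.PP.T8.H76

open Pool.Agent.Helper51_AWC Pool.Agent.Helper79_WRA Pool.Agent.PP Pool.Agent.PP.KF
open Pool.Agent.PP.K9 Pool.Agent.PP.K9.H97 Pool.Agent.PP.H75 Pool.Agent.PP.T3 Pool.Agent.PP.T2

attribute [local instance] Ideal.Quotient.field

theorem lb8 (hPR : Pr2Stmt) (hFX : FxsStmt) (hST : StgStmt) (hDA : DatStmt) (hHG : HgtStmt)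
    (hBN : Bn8Stmt) : Lb8Stmt := by
  intro ℓ _ M _ hM h2 G _ _ e V γ hL a k hk hka hexp hy hix hsz
  have hpr : ℓ.Prime := Fact.out
  have ha : 0 < a := lt_of_lt_of_le hk hka
  obtain ⟨N, hN⟩ := hPR ℓ h2 G
  obtain ⟨b, d, c, ε, hD⟩ := hDA ℓ M hM G e V γ hL
  have h3 := hFX ℓ M hM G N hN e hL.blk.1 (fun y hy hy2 b hb heb g hg =>
    hST ℓ M hM G N hN e V γ hL y hy hy2 b hb heb g hg)
  obtain ⟨y, hyk⟩ := hy
  have h4 := hHG ℓ M hM h2 G e V γ b d c ε hD a k ha hexp hix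
  have h5 := hBN ℓ M hM h2 G N hN e V γ b d c ε hD a k hk hka hexp y hyk h4
  obtain ⟨W, hW⟩ : ∃ W : ℕ, W = Nat.card (Uw (ℓ ^ k) V) := ⟨_, rfl⟩
  rw [← hW] at h5 hsz
  have hWpos : 0 < W := by
    rw [hW]
    exact Nat.card_pos
  have h6 : ln e * (ℓ ^ (k - 1) * W) ≤ ℓ ^ a * (ℓ ^ (k - 1) * W) := by
    calc ln e * (ℓ ^ (k - 1) * W) ≤ _ * (ℓ ^ (k - 1) * W) := Nat.mul_le_mul_right _ h3
      _ = _ := (mul_assoc _ _ _).symm
      _ ≤ Nat.card V := h5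
      _ ≤ ℓ ^ (a + k - 1) * W := hsz
      _ = ℓ ^ a * (ℓ ^ (k - 1) * W) := by
        rw [← mul_assoc, ← pow_add]
        congr 2
        omega
  exact Nat.le_of_mul_le_mul_right h6 (Nat.mul_pos (pow_pos hpr.pos _) hWpos)

end Pool.Agent.PP.T8.H76
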